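import Mathlib
import Pool.Agent.Lib.MP_7c5c90_an.Lower

set_option autoImplicit false

open MeasureTheory

namespace Pool.Agent.Lib.MP_7c5c90_an.Variants.ExactConstant

/-- The best constant in Friedrichs' inequality on the square `(-1,1)²` is `(π+2)/(π-2)`. -/
theorem result :
    IsLeast {Γ : ℝ | ∀ w : ℂ → ℂ,
      DifferentiableOn ℂ w {z : ℂ | |z.re| < 1 ∧ |z.im| < 1} →
      IntegrableOn (fun z => (w z).re ^ 2) {z : ℂ | |z.re| < 1 ∧ |z.im| < 1} →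
      IntegrableOn (fun z => (w z).im ^ 2) {z : ℂ | |z.re| < 1 ∧ |z.im| < 1} →
      ∫ z in {z : ℂ | |z.re| < 1 ∧ |z.im| < 1}, (w z).re = 0 →
      ∫ z in {z : ℂ | |z.re| < 1 ∧ |z.im| < 1}, (w z).re ^ 2
        ≤ Γ * ∫ z in {z : ℂ | |z.re| < 1 ∧ |z.im| < 1}, (w z).im ^ 2}
      ((Real.pi + 2) / (Real.pi - 2)) := by
  have hQ : {z : ℂ | |z.re| < 1 ∧ |z.im| < 1} =
      Complex.reProdIm (Set.Ioo (-1) 1) (Set.Ioo (-1) 1) := by
    ext z
    simp [Complex.mem_reProdIm, abs_lt]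
  rw [hQ]
  exact ⟨Pool.Agent.Lib.MP_7c5c90_an.upper, Pool.Agent.Lib.MP_7c5c90_an.lower⟩

end Pool.Agent.Lib.MP_7c5c90_an.Variants.ExactConstant
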